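import Pool.Agent.Lib.MP_4cfb03_an.Core

/-!
# Every minimizer of `J = λ₁ / h₁²` among planar convex sets is a polygon

Full positive answer to Q1 of MP_4cfb03_an.
-/

namespace Pool.Agent.Results.MP_4cfb03_an.MinimizersArePolygons

open Pool.Agent.Lib.MP_4cfb03_an

/-- Let `Ω` be a nonempty bounded open convex subset of the euclidean plane which minimizes
`J(Ω) = λ₁(Ω) / h₁(Ω)²` among all such sets. Then `Ω` is a polygon: it is nonempty and it is the
interior of the convex hull of finitely many points. -/
theorem result (Ω : Set (EuclideanSpace ℝ (Fin 2))) (hΩ : Dom Ω)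
    (hmin : ∀ Ω' : Set (EuclideanSpace ℝ (Fin 2)), Dom Ω' → J Ω ≤ J Ω') : IsPolygon Ω :=
  main_euclidean hΩ hmin

end Pool.Agent.Results.MP_4cfb03_an.MinimizersArePolygons
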